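import Mathlib
import Pool.Agent.W2helper31.BE.Stm

set_option autoImplicit false

/-!
# Piece GAU of project BE: symmetry, monotonicity, no atoms for the standard normal law
-/

open MeasureTheory ProbabilityTheory

namespace Pool.Agent.W2helper73.BE

open Pool.Agent.W2helper31.BE

/-- the standard normal law is symmetric -/
theorem map_neg_gauss : (gaussianReal 0 1).map (fun x : ℝ => -x) = gaussianReal 0 1 := by
  rw [gaussianReal_map_neg]
  simp

theorem Ici_eq_Iic (x : ℝ) :
    (gaussianReal 0 1) (Set.Ici x) = (gaussianReal 0 1) (Set.Iic (-x)) := by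
  have h1 : ((gaussianReal 0 1).map (fun x : ℝ => -x)) (Set.Iic (-x))
      = (gaussianReal 0 1) ((fun x : ℝ => -x) ⁻¹' (Set.Iic (-x))) :=
    Measure.map_apply measurable_neg measurableSet_Iic
  rw [map_neg_gauss] at h1
  rw [h1]
  congr 1
  ext y
  simp

theorem sym (x : ℝ) : G x + G (-x) = 1 := by
  have : NullSingletonClass (gaussianReal 0 1) := nullSingletonClass_gaussianReal one_ne_zero
  have h1 : (gaussianReal 0 1) (Set.Ioi x) = (gaussianReal 0 1) (Set.Iic (-x)) := by
    rw [← Ici_eq_Iic]
    exact measure_congr Ioi_ae_eq_Ici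
  have h2 : (gaussianReal 0 1).real (Set.Iic x)ᶜ = 1 - (gaussianReal 0 1).real (Set.Iic x) :=
    probReal_compl_eq_one_sub measurableSet_Iic
  rw [Set.compl_Iic] at h2
  have h3 : (gaussianReal 0 1).real (Set.Ioi x) = G (-x) := by
    unfold Measure.real G
    rw [h1]
  have h4 : (gaussianReal 0 1).real (Set.Iic x) = G x := rfl
  rw [h3, h4] at h2
  linarith

theorem gau : P_GAU := by
  have : NullSingletonClass (gaussianReal 0 1) := nullSingletonClass_gaussianReal one_ne_zero
  have hmono : ∀ x y : ℝ, x ≤ y → G x ≤ G y := by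
    intro x y hxy
    exact measureReal_mono (μ := gaussianReal 0 1) (Set.Iic_subset_Iic.2 hxy)
  refine ⟨sym, hmono, ?_, ?_⟩
  · intro x
    exact measureReal_le_one (μ := gaussianReal 0 1)
  · intro a ha
    have h0 : G 0 = 1 / 2 := by
      have h := sym 0
      rw [neg_zero] at h
      linarith
    have h1 : (gaussianReal 0 1) (Set.Ioo 0 a) = (gaussianReal 0 1) (Set.Ioc 0 a) :=
      measure_congr Ioo_ae_eq_Ioc
    have h2 : (gaussianReal 0 1).real (Set.Iic 0 ∪ Set.Ioc 0 a)
        = (gaussianReal 0 1).real (Set.Iic 0) + (gaussianReal 0 1).real (Set.Ioc 0 a) := by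
      apply measureReal_union _ measurableSet_Ioc
      rw [Set.disjoint_left]
      intro y hy hy2
      exact absurd hy2.1 (not_lt.2 hy)
    rw [Set.Iic_union_Ioc_eq_Iic ha.le] at h2
    have h3 : (gaussianReal 0 1).real (Set.Iic a) = G a := rfl
    have h4 : (gaussianReal 0 1).real (Set.Iic 0) = G 0 := rfl
    have h5 : (gaussianReal 0 1).real (Set.Ioc 0 a)
        = ((gaussianReal 0 1) (Set.Ioo 0 a)).toReal := by
      rw [h1]
      rfl
    rw [h3, h4, h5, h0] at h2
    linarith

end Pool.Agent.W2helper73.BE
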